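import Mathlib

/-!
# Products of two almost abelian subgroups contain no long direct products

If `G = AB` with `A`, `B` almost abelian (abelian subgroups of index at most `n`), then no subgroup
of `G` is isomorphic to a direct product of `N(n)` non-metabelian groups.
-/

set_option autoImplicit false

universe u v

open scoped commutatorElement

namespace Pool.Agent.Results.MP_00fcbb_al.ProductBound

/-- `A` has an abelian subgroup of (finite) index at most `n`. -/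
def AlmostAbelian {G : Type u} [Group G] (n : ℕ) (A : Subgroup G) : Prop :=
  ∃ H : Subgroup G, H ≤ A ∧ (H.subgroupOf A).FiniteIndex ∧ (H.subgroupOf A).index ≤ n ∧
    ∀ x ∈ H, ∀ y ∈ H, x * y = y * x

/-- A group is metabelian if any two commutators commute. -/
def Metabelian (K : Type v) [Group K] : Prop :=
  ∀ x y z w : K, ⁅⁅x, y⁆, ⁅z, w⁆⁆ = 1

section ito

variable {G : Type u} [Group G] {A B : Subgroup G}

/-- the product set -/
def InProd (A B : Subgroup G) (g : G) : Prop := ∃ a ∈ A, ∃ b ∈ B, g = a * b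

/-- Ito's calculation: `c(g,a) = a g⁻¹ a⁻¹ g`. If `g, g', g a', g' a` lie in `AB`, then `c(g,a)` and
`c(g',a')` commute. Here for `g = b`, `g' = b'` in `B`. -/
theorem ito_core (hA : ∀ x ∈ A, ∀ y ∈ A, x * y = y * x) (hB : ∀ x ∈ B, ∀ y ∈ B, x * y = y * x)
    {a a' b b' : G} (ha' : a' ∈ A) (hb : b ∈ B) (hb' : b' ∈ B)
    (h : InProd A B (b * a')) (h' : InProd A B (b' * a)) (ha : a ∈ A) :
    Commute (a * b⁻¹ * a⁻¹ * b) (a' * b'⁻¹ * a'⁻¹ * b') := by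
  obtain ⟨α, hα, β, hβ, h⟩ := h
  obtain ⟨α', hα', β', hβ', h'⟩ := h'
  have c1 : b * b'⁻¹ = b'⁻¹ * b := hB _ hb _ (inv_mem hb')
  have c2 : β' * b⁻¹ = b⁻¹ * β' := hB _ hβ' _ (inv_mem hb)
  have c3 : a'⁻¹ * α' = α' * a'⁻¹ := hA _ (inv_mem ha') _ hα'
  have c4 : α⁻¹ * α'⁻¹ = α'⁻¹ * α⁻¹ := hA _ (inv_mem hα) _ (inv_mem hα')
  have c5 : a'⁻¹ * a = a * a'⁻¹ := hA _ (inv_mem ha') _ ha
  have c6 : a⁻¹ * α = α * a⁻¹ := hA _ (inv_mem ha) _ hα
  have c7 : β' * β⁻¹ = β⁻¹ * β' := hB _ hβ' _ (inv_mem hβ)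
  have c8 : β * b'⁻¹ = b'⁻¹ * β := hB _ hβ _ (inv_mem hb')
  have c9 : a⁻¹ * a' = a' * a⁻¹ := hA _ (inv_mem ha) _ ha'
  have e1 : a'⁻¹ * b' * (a * b⁻¹ * a⁻¹ * b) * b'⁻¹ * a' = α' * β⁻¹ * α'⁻¹ * β := by
    calc a'⁻¹ * b' * (a * b⁻¹ * a⁻¹ * b) * b'⁻¹ * a'
        = a'⁻¹ * (b' * a) * b⁻¹ * a⁻¹ * (b * b'⁻¹) * a' := by group
      _ = a'⁻¹ * (b' * a) * b⁻¹ * a⁻¹ * (b'⁻¹ * b) * a' := by rw [c1]
      _ = a'⁻¹ * (b' * a) * b⁻¹ * (b' * a)⁻¹ * (b * a') := by group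
      _ = a'⁻¹ * (α' * β') * b⁻¹ * (α' * β')⁻¹ * (α * β) := by rw [h, h']
      _ = (a'⁻¹ * α') * (β' * b⁻¹) * β'⁻¹ * α'⁻¹ * (α * β) := by group
      _ = (α' * a'⁻¹) * (b⁻¹ * β') * β'⁻¹ * α'⁻¹ * (α * β) := by rw [c3, c2]
      _ = α' * (b * a')⁻¹ * α'⁻¹ * (α * β) := by group
      _ = α' * (α * β)⁻¹ * α'⁻¹ * (α * β) := by rw [h]
      _ = α' * β⁻¹ * (α⁻¹ * α'⁻¹) * α * β := by group
      _ = α' * β⁻¹ * (α'⁻¹ * α⁻¹) * α * β := by rw [c4]
      _ = α' * β⁻¹ * α'⁻¹ * β := by group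
  have e2 : b' * a'⁻¹ * (a * b⁻¹ * a⁻¹ * b) * a' * b'⁻¹ = α' * β⁻¹ * α'⁻¹ * β := by
    calc b' * a'⁻¹ * (a * b⁻¹ * a⁻¹ * b) * a' * b'⁻¹
        = b' * (a'⁻¹ * a) * b⁻¹ * a⁻¹ * (b * a') * b'⁻¹ := by group
      _ = b' * (a * a'⁻¹) * b⁻¹ * a⁻¹ * (b * a') * b'⁻¹ := by rw [c5]
      _ = b' * a * (b * a')⁻¹ * a⁻¹ * (b * a') * b'⁻¹ := by group
      _ = b' * a * (α * β)⁻¹ * a⁻¹ * (α * β) * b'⁻¹ := by rw [h]
      _ = b' * a * β⁻¹ * α⁻¹ * (a⁻¹ * α) * β * b'⁻¹ := by group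
      _ = b' * a * β⁻¹ * α⁻¹ * (α * a⁻¹) * β * b'⁻¹ := by rw [c6]
      _ = (b' * a) * β⁻¹ * a⁻¹ * (β * b'⁻¹) := by group
      _ = (b' * a) * β⁻¹ * a⁻¹ * (b'⁻¹ * β) := by rw [c8]
      _ = (b' * a) * β⁻¹ * (b' * a)⁻¹ * β := by group
      _ = (α' * β') * β⁻¹ * (α' * β')⁻¹ * β := by rw [h']
      _ = α' * (β' * β⁻¹) * β'⁻¹ * α'⁻¹ * β := by group
      _ = α' * (β⁻¹ * β') * β'⁻¹ * α'⁻¹ * β := by rw [c7]
      _ = α' * β⁻¹ * α'⁻¹ * β := by group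
  have e3 := e1.trans e2.symm
  have e4 : (a * b⁻¹ * a⁻¹ * b) * (a' * b'⁻¹ * a'⁻¹ * b') =
      (a' * b'⁻¹) * (b' * a'⁻¹ * (a * b⁻¹ * a⁻¹ * b) * a' * b'⁻¹) * (a'⁻¹ * b') := by group
  show (a * b⁻¹ * a⁻¹ * b) * (a' * b'⁻¹ * a'⁻¹ * b') =
    (a' * b'⁻¹ * a'⁻¹ * b') * (a * b⁻¹ * a⁻¹ * b)
  rw [e4, ← e3]
  group

/-- If `x_i, x_i⁻¹, x_i x_j⁻¹` lie in `AB` (`A`, `B` abelian), then all commutators of the `x_i⁻¹`
commute. -/
theorem four (hA : ∀ x ∈ A, ∀ y ∈ A, x * y = y * x) (hB : ∀ x ∈ B, ∀ y ∈ B, x * y = y * x)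
    {I : Type} (x : I → G) (h1 : ∀ i, InProd A B (x i)) (h2 : ∀ i, InProd A B (x i)⁻¹)
    (h3 : ∀ i j, InProd A B (x i * (x j)⁻¹)) (i j k l : I) :
    Commute ⁅(x i)⁻¹, (x j)⁻¹⁆ ⁅(x k)⁻¹, (x l)⁻¹⁆ := by
  choose p hp q hq h1 using h1
  choose α hα b hb h2 using h2
  have h2' : ∀ i, x i = (b i)⁻¹ * (α i)⁻¹ := fun i => by
    rw [← mul_inv_rev, ← h2, inv_inv]
  have h4 : ∀ i j, InProd A B (q i * α j) := fun i j => by
    obtain ⟨c, hc, d, hd, h⟩ := h3 i j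
    refine ⟨(p i)⁻¹ * c, mul_mem (inv_mem (hp i)) hc, d * (b j)⁻¹, mul_mem hd (inv_mem (hb j)), ?_⟩
    have : (p i)⁻¹ * (x i * (x j)⁻¹) * (b j)⁻¹ = q i * α j := by
      rw [h2 j, h1 i]
      group
    rw [← this, h]
    group
  have comm : ∀ i j k l, Commute (α j * (q i)⁻¹ * (α j)⁻¹ * q i) (α l * (q k)⁻¹ * (α l)⁻¹ * q k) :=
    fun i j k l => ito_core hA hB (hα l) (hq i) (hq k) (h4 i l) (h4 k j) (hα j)
  have key : ∀ i j, α j * (q i)⁻¹ * (α j)⁻¹ * q i = α j * (x i)⁻¹ * (α j)⁻¹ * x i := fun i j => by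
    have c1 : (p i)⁻¹ * (α j)⁻¹ = (α j)⁻¹ * (p i)⁻¹ := hA _ (inv_mem (hp i)) _ (inv_mem (hα j))
    rw [h1 i]
    calc α j * (q i)⁻¹ * (α j)⁻¹ * q i = α j * (q i)⁻¹ * ((α j)⁻¹ * (p i)⁻¹) * p i * q i := by group
      _ = α j * (q i)⁻¹ * ((p i)⁻¹ * (α j)⁻¹) * p i * q i := by rw [c1]
      _ = α j * (p i * q i)⁻¹ * (α j)⁻¹ * (p i * q i) := by group
  have form : ∀ i j, ⁅(x i)⁻¹, (x j)⁻¹⁆ =
      (α j * (q i)⁻¹ * (α j)⁻¹ * q i)⁻¹ * (α i * (q j)⁻¹ * (α i)⁻¹ * q j) := fun i j => by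
    rw [key, key, commutatorElement_def]
    have c1 : (α i)⁻¹ * (α j)⁻¹ = (α j)⁻¹ * (α i)⁻¹ := hA _ (inv_mem (hα i)) _ (inv_mem (hα j))
    have c2 : (b i)⁻¹ * b j = b j * (b i)⁻¹ := hB _ (inv_mem (hb i)) _ (hb j)
    have e : α j * x i * (α j)⁻¹ * α i * (x j)⁻¹ * (α i)⁻¹ = (x j)⁻¹ * x i := by
      rw [h2 j, h2' i]
      calc α j * ((b i)⁻¹ * (α i)⁻¹) * (α j)⁻¹ * α i * (α j * b j) * (α i)⁻¹
          = α j * (b i)⁻¹ * ((α i)⁻¹ * (α j)⁻¹) * α i * α j * b j * (α i)⁻¹ := by group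
        _ = α j * (b i)⁻¹ * ((α j)⁻¹ * (α i)⁻¹) * α i * α j * b j * (α i)⁻¹ := by rw [c1]
        _ = α j * ((b i)⁻¹ * b j) * (α i)⁻¹ := by group
        _ = α j * (b j * (b i)⁻¹) * (α i)⁻¹ := by rw [c2]
        _ = α j * b j * ((b i)⁻¹ * (α i)⁻¹) := by group
    calc (x i)⁻¹ * (x j)⁻¹ * (x i)⁻¹⁻¹ * (x j)⁻¹⁻¹ = (x i)⁻¹ * ((x j)⁻¹ * x i) * x j := by group
      _ = (x i)⁻¹ * (α j * x i * (α j)⁻¹ * α i * (x j)⁻¹ * (α i)⁻¹) * x j := by rw [e]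
      _ = _ := by group
  rw [form, form]
  exact ((comm i j k l).inv_left.mul_left (comm j i k l)).inv_right.mul_right
    ((comm i j l k).inv_left.mul_left (comm j i l k))

end ito

section colour

variable {G : Type u} [Group G]

/-- Finitely many double cosets: the elements of `G = AB` can be coloured with `n * n` colours such
that elements of the same colour lie in the same double coset `A₀ g B₀`. -/
theorem exists_colour {n : ℕ} {A B A₀ B₀ : Subgroup G}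
    (fA : (A₀.subgroupOf A).FiniteIndex) (fB : (B₀.subgroupOf B).FiniteIndex)
    (iA : (A₀.subgroupOf A).index ≤ n) (iB : (B₀.subgroupOf B).index ≤ n)
    (h : ∀ g : G, ∃ a ∈ A, ∃ b ∈ B, g = a * b) :
    ∃ c : G → Fin n × Fin n, ∀ g g', c g = c g' → ∃ a ∈ A₀, ∃ b ∈ B₀, g = a * g' * b := by
  classical
  have _ : Fintype (A ⧸ A₀.subgroupOf A) := Fintype.ofFinite _
  have _ : Fintype (B ⧸ B₀.subgroupOf B) := Fintype.ofFinite _
  obtain ⟨eA⟩ : Nonempty ((A ⧸ A₀.subgroupOf A) ↪ Fin n) := by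
    apply Function.Embedding.nonempty_of_card_le
    rw [Fintype.card_fin, ← Nat.card_eq_fintype_card]
    exact iA
  obtain ⟨eB⟩ : Nonempty ((B ⧸ B₀.subgroupOf B) ↪ Fin n) := by
    apply Function.Embedding.nonempty_of_card_le
    rw [Fintype.card_fin, ← Nat.card_eq_fintype_card]
    exact iB
  choose a ha b hb hab using h
  refine ⟨fun g => (eA (QuotientGroup.mk (⟨a g, ha g⟩ : A)⁻¹),
    eB (QuotientGroup.mk (⟨b g, hb g⟩ : B))), fun g g' hc => ?_⟩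
  rw [Prod.mk.injEq] at hc
  have h1 := eA.injective hc.1
  have h2 := eB.injective hc.2
  rw [QuotientGroup.eq] at h1 h2
  rw [Subgroup.mem_subgroupOf] at h1 h2
  have h1' : a g * (a g')⁻¹ ∈ A₀ := by simpa using h1
  have h2' : (b g)⁻¹ * b g' ∈ B₀ := by simpa using h2
  refine ⟨a g * (a g')⁻¹, h1', (b g')⁻¹ * b g, ?_, ?_⟩
  · have := inv_mem h2'
    simpa using this
  · calc g = a g * b g := hab g
      _ = a g * (a g')⁻¹ * (a g' * b g') * ((b g')⁻¹ * b g) := by group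
      _ = a g * (a g')⁻¹ * g' * ((b g')⁻¹ * b g) := by rw [← hab g']

end colour

/-- The alphabet: the words `1`, `x_i`, `x_i⁻¹`, `x_i⁻¹ x_j`. -/
abbrev Alph : Type := Option (Fin 4 ⊕ Fin 4 ⊕ Fin 4 × Fin 4)

/-- evaluation of a word -/
def ev {K : Type v} [Group K] (x : Fin 4 → K) : Alph → K
  | none => 1
  | some (.inl i) => x i
  | some (.inr (.inl i)) => (x i)⁻¹
  | some (.inr (.inr p)) => (x p.1)⁻¹ * x p.2

/-- **Theorem.** For every `n` there is an `N` such that, whenever a group `G` is the product of two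
subgroups `A`, `B` which have abelian subgroups of index at most `n`, no subgroup of `G` is
isomorphic to a direct product of `N` non-metabelian groups. -/
theorem result (n : ℕ) : ∃ N : ℕ, ∀ (G : Type u) [Group G] (A B : Subgroup G),
    AlmostAbelian n A → AlmostAbelian n B → (∀ g : G, ∃ a ∈ A, ∃ b ∈ B, g = a * b) →
    ∀ (H : Fin N → Type v) [∀ k, Group (H k)], (∀ k, ¬ Metabelian (H k)) →
      ∀ φ : (∀ k, H k) →* G, ¬ Function.Injective φ := by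
  classical
  obtain ⟨ι, _, hι⟩ :=
    Combinatorics.Line.exists_mono_in_high_dimension Alph (Fin n × Fin n)
  refine ⟨Fintype.card ι, fun G _ A B hA hB hG H _ hH φ hφ => ?_⟩
  obtain ⟨A₀, hA₀, fA, iA, cA⟩ := hA
  obtain ⟨B₀, hB₀, fB, iB, cB⟩ := hB
  obtain ⟨c, hc⟩ := exists_colour fA fB iA iB hG
  let e : ι ≃ Fin (Fintype.card ι) := Fintype.equivFin ι
  have hH' : ∀ k, ∃ x : Fin 4 → H k, ⁅⁅x 0, x 1⁆, ⁅x 2, x 3⁆⁆ ≠ 1 := fun k => by
    have := hH k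
    unfold Metabelian at this
    push Not at this
    obtain ⟨x, y, z, w, h⟩ := this
    exact ⟨![x, y, z, w], by simpa using h⟩
  choose x hx using hH'
  let P : (ι → Alph) → G := fun f => φ fun k => ev (x k) (f (e.symm k))
  obtain ⟨l, ⟨col, hl⟩⟩ := hι fun f => c (P f)
  have hcol : ∀ t, c (P (l t)) = c (P (l none)) := fun t => (hl t).trans (hl none).symm
  -- the active coordinates
  let S : (∀ k, H k) → (∀ k, H k) := fun y k => if l.idxFun (e.symm k) = none then y k else 1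
  have hS : ∀ t, P (l t) = φ (S fun k => ev (x k) t) * P (l none) := fun t => by
    show φ _ = φ _ * φ _
    rw [← map_mul]
    congr 1
    funext k
    rw [Pi.mul_apply]
    rcases h : l.idxFun (e.symm k) with _ | y
    · rw [Combinatorics.Line.apply_none l _ _ h, Combinatorics.Line.apply_none l _ _ h]
      simp [S, h, ev]
    · rw [Combinatorics.Line.apply_some h, Combinatorics.Line.apply_some h]
      simp [S, h]
  set w := P (l none) with hw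
  let B₁ : Subgroup G := B₀.map (MulAut.conj w).toMonoidHom
  have cB₁ : ∀ x ∈ B₁, ∀ y ∈ B₁, x * y = y * x := by
    rintro _ ⟨y, hy, rfl⟩ _ ⟨z, hz, rfl⟩
    rw [← map_mul, ← map_mul, cB y hy z hz]
  have hin : ∀ t, InProd A₀ B₁ (φ (S fun k => ev (x k) t)) := fun t => by
    obtain ⟨a, ha, b, hb, h⟩ := hc _ _ (hcol t)
    rw [hS t] at h
    refine ⟨a, ha, w * b * w⁻¹, ⟨b, hb, rfl⟩, ?_⟩
    calc φ (S fun k => ev (x k) t) = (φ (S fun k => ev (x k) t) * w) * w⁻¹ := by group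
      _ = (a * w * b) * w⁻¹ := by rw [h]
      _ = _ := by group
  let X : Fin 4 → G := fun i => φ (S fun k => x k i)
  have q1 : ∀ i, φ (S fun k => ev (x k) (some (.inl i))) = X i := fun i => rfl
  have q2 : ∀ i, φ (S fun k => ev (x k) (some (.inr (.inl i)))) = (X i)⁻¹ := fun i => by
    rw [← map_inv]
    congr 1
    funext k
    by_cases h : l.idxFun (e.symm k) = none <;> simp [S, h, ev]
  have q3 : ∀ i j, φ (S fun k => ev (x k) (some (.inr (.inr (i, j))))) = (X i)⁻¹ * X j :=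
    fun i j => by
    rw [← map_inv, ← map_mul]
    congr 1
    funext k
    by_cases h : l.idxFun (e.symm k) = none <;> simp [S, h, ev]
  have hcomm := four cA cB₁ (fun i => (X i)⁻¹) (fun i => by rw [← q2]; exact hin _)
    (fun i => by rw [inv_inv, ← q1]; exact hin _)
    (fun i j => by rw [inv_inv, ← q3]; exact hin _) 0 1 2 3
  simp only [inv_inv] at hcomm
  have hone : ⁅⁅X 0, X 1⁆, ⁅X 2, X 3⁆⁆ = 1 := commutatorElement_eq_one_iff_commute.2 hcomm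
  have hφS : φ (S fun k => ⁅⁅x k 0, x k 1⁆, ⁅x k 2, x k 3⁆⁆) = 1 := by
    rw [← hone]
    simp only [commutatorElement_def, X, ← map_inv, ← map_mul]
    congr 1
    funext k
    by_cases h : l.idxFun (e.symm k) = none <;> simp [S, h]
  obtain ⟨i, hi⟩ := l.proper
  have h0 := hφ (hφS.trans (map_one φ).symm)
  have h1 := congrFun h0 (e i)
  simp only [S, Equiv.symm_apply_apply, hi, if_true, Pi.one_apply] at h1
  exact hx (e i) h1

end Pool.Agent.Results.MP_00fcbb_al.ProductBound
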