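import Pool.Agent.AP.Main

/-!
# Products of a central-by-finite group and an almost abelian group are almost soluble

If `G = AB` with `A` central-by-finite (the centre of `A` has finite index in `A`) and `B` almost abelian
(an abelian subgroup of finite index), then `G` is almost soluble.
-/

set_option autoImplicit false

universe u

namespace Pool.Agent.Results.MP_00fcbb_al.CentralByFinite

theorem result :
    ∀ (G : Type u) [Group G] (A B : Subgroup G),
      (∀ g : G, ∃ a ∈ A, ∃ b ∈ B, g = a * b) →
      (∃ Z : Subgroup G, Z ≤ A ∧ (Z.subgroupOf A).FiniteIndex ∧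
          ∀ x ∈ Z, ∀ y ∈ A, x * y = y * x) →
      (∃ K : Subgroup G, K ≤ B ∧ (K.subgroupOf B).FiniteIndex ∧
          ∀ x ∈ K, ∀ y ∈ K, x * y = y * x) →
      ∃ S : Subgroup G, S.FiniteIndex ∧ IsSolvable S := by
  intro G _ A B hAB hA hB
  exact Pool.Agent.AP.main G A B hAB hA hB

end Pool.Agent.Results.MP_00fcbb_al.CentralByFinite
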