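import Pool.Agent.helper45.AB2.Red

/-!
# Products of an abelian group and a group with an abelian subgroup of index two

If `G = AB` with `A` abelian and `B` having an abelian subgroup `C` of index two, then `G` is
soluble of derived length at most five.
-/

set_option autoImplicit false

universe u

namespace Pool.Agent.Results.MP_00fcbb_al.IndexTwo

theorem result (G : Type u) [Group G] (A B C : Subgroup G)
    (hAB : ∀ g : G, ∃ a ∈ A, ∃ b ∈ B, g = a * b)
    (hA : ∀ x ∈ A, ∀ y ∈ A, x * y = y * x)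
    (hCB : C ≤ B) (hC : ∀ x ∈ C, ∀ y ∈ C, x * y = y * x)
    (hindex : (C.subgroupOf B).index = 2) :
    derivedSeries G 5 = ⊥ := by
  have hF : Pool.Agent.helper45.AB2.Fac A B C := by
    refine ⟨fun g => ?_, hA, hCB, hC, fun x hx y hy hxC hyC => ?_⟩
    · obtain ⟨a, ha, b, hb, h⟩ := hAB g
      exact ⟨a, ha, b, hb, h.symm⟩
    · have h := Subgroup.mul_mem_iff_of_index_two hindex (a := (⟨x, hx⟩ : B)) (b := ⟨y, hy⟩)
      have h1 : ¬ (⟨x, hx⟩ : B) ∈ C.subgroupOf B := fun h => hxC (Subgroup.mem_subgroupOf.1 h)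
      have h2 : ¬ (⟨y, hy⟩ : B) ∈ C.subgroupOf B := fun h => hyC (Subgroup.mem_subgroupOf.1 h)
      exact Subgroup.mem_subgroupOf.1 (h.2 (by simp only [h1, h2]))
  exact hF.derived5

end Pool.Agent.Results.MP_00fcbb_al.IndexTwo
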